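import Mathlib

namespace Pool.Agent.Results.MP_eefcda_al.Counter

/-- `(M, S, p, q)` is a categorical quasiproduct monoid. -/
def IsCQP {M : Type} [Monoid M] (S : M → M → M) (p q : M) : Prop :=
  (∀ a b, p * S a b = a) ∧ (∀ a b, q * S a b = b) ∧ ∀ a b c, S a b * c = S (a * c) (b * c)

abbrev E : Type := Function.End ℕ

def p1 : E := fun n => n.unpair.1
def p2 : E := fun n => n.unpair.2
def Sg (a b : E) : E := fun n => Nat.pair (a n) (b n)
def x1 (a : E) : E := Sg (a * p1) p2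
def sw : E := Sg p2 p1
def dg : E := Sg 1 1
def al : E := Sg (p1 * p1) (Sg (p2 * p1) p2)
def be : E := Sg (Sg p1 (p1 * p2)) (p2 * p2)

theorem mul_app (f g : E) (n : ℕ) : (f * g) n = f (g n) := rfl
theorem one_app (n : ℕ) : (1 : E) n = n := rfl

theorem x1_mul (a b : E) : x1 (a * b) = x1 a * x1 b := by
  funext n; simp [x1, Sg, p1, p2, mul_app]
theorem x1_one : x1 1 = 1 := by
  funext n; simp [x1, Sg, p1, p2, mul_app, one_app]
theorem x1_x1 (a : E) : x1 (x1 a) = be * x1 a * al := by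
  funext n; simp [x1, Sg, p1, p2, mul_app, al, be]
theorem Sg_eq (a b : E) : Sg a b = x1 a * sw * x1 b * sw * dg := by
  funext n; simp [x1, Sg, p1, p2, mul_app, sw, dg, one_app]

def G0 : Set E := {p1, p2, sw, dg, al, be}

def M : Submonoid E := Submonoid.closure (G0 ∪ x1 '' G0)

theorem g0 {g : E} (h : g ∈ G0) : g ∈ M := Submonoid.subset_closure (Or.inl h)

theorem x1_mem {g : E} (h : g ∈ M) : x1 g ∈ M := by
  induction h using Submonoid.closure_induction with
  | mem x hx =>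
    rcases hx with hx | ⟨y, hy, rfl⟩
    · exact Submonoid.subset_closure (Or.inr ⟨x, hx, rfl⟩)
    · rw [x1_x1]
      exact M.mul_mem (M.mul_mem (g0 (by simp [G0]))
        (Submonoid.subset_closure (Or.inr ⟨y, hy, rfl⟩))) (g0 (by simp [G0]))
  | one => rw [x1_one]; exact M.one_mem
  | mul x y _ _ hx hy => rw [x1_mul]; exact M.mul_mem hx hy

theorem Sg_mem {a b : E} (ha : a ∈ M) (hb : b ∈ M) : Sg a b ∈ M := by
  rw [Sg_eq]
  have h1 : sw ∈ M := g0 (by simp [G0])
  exact M.mul_mem (M.mul_mem (M.mul_mem (M.mul_mem (x1_mem ha) h1) (x1_mem hb)) h1)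
    (g0 (by simp [G0]))

theorem result : ∃ (N : Type) (_ : Monoid N) (S : N → N → N) (p q : N),
    Nontrivial N ∧ IsCQP S p q ∧ S p q = 1 ∧
      ∃ G : Finset N, Submonoid.closure (G : Set N) = ⊤ := by
  refine ⟨M, inferInstance, fun a b => ⟨Sg a b, Sg_mem a.2 b.2⟩, ⟨p1, g0 (by simp [G0])⟩,
    ⟨p2, g0 (by simp [G0])⟩, ⟨⟨⟨p1, g0 (by simp [G0])⟩, ⟨p2, g0 (by simp [G0])⟩, fun h => ?_⟩⟩,
    ⟨fun a b => ?_, fun a b => ?_, fun a b c => ?_⟩, ?_, ?_⟩
  · have := congrFun (congrArg Subtype.val h) (Nat.pair 0 1)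
    simp [p1, p2] at this
  · apply Subtype.ext; funext n; simp [p1, Sg, mul_app]
  · apply Subtype.ext; funext n; simp [p2, Sg, mul_app]
  · apply Subtype.ext; funext n; simp [Sg, mul_app]
  · apply Subtype.ext; funext n; simp [p1, p2, Sg, one_app]
  · have h1 : (G0 ∪ x1 '' G0).Finite := by
      have : G0.Finite := by unfold G0; exact Set.toFinite _
      exact this.union (this.image _)
    have h2 : Monoid.FG M := (Monoid.fg_iff_submonoid_fg M).2 ((Submonoid.fg_iff M).2 ⟨_, rfl, h1⟩)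
    exact h2.fg_top

end Pool.Agent.Results.MP_eefcda_al.Counter
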